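import Pool.Agent.Helper10.SP.GoalsA

set_option autoImplicit false

open Complex Metric Set Filter Topology MeasureTheory
open scoped ContDiff ComplexConjugate ComplexOrder Manifold Matrix

namespace Pool.Agent.Helper83.SP

open Pool.Agent.Helper95.Lin Pool.Agent.Helper16.Abund Pool.Agent.Helper92.Orb
open Pool.Agent.Helper10.SP

theorem cd_congr {n : ℕ} {W : Set (Cn n)} (hW : IsOpen W) {f g : Cn n → ℂ}
    (h : ∀ y ∈ W, f y = g y) (l : Fin n) {x : Cn n} (hx : x ∈ W) :
    cd l f x = cd l g x ∧ cdb l f x = cdb l g x := by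
  have he : f =ᶠ[𝓝 x] g := by
    filter_upwards [hW.mem_nhds hx] with y hy using h y hy
  have := he.fderiv_eq (𝕜 := ℝ)
  constructor
  · simp only [cd, this]
  · simp only [cdb, this]

theorem cd_const {n : ℕ} (c : ℂ) (l : Fin n) (x : Cn n) :
    cd l (fun _ => c) x = 0 ∧ cdb l (fun _ => c) x = 0 := by
  constructor
  · simp [cd]
  · simp [cdb]

theorem cd_sum (hWIRT : S_WIRT) {n : ℕ} {W : Set (Cn n)} (hW : IsOpen W) {ι : Type}
    (s : Finset ι) (f : ι → Cn n → ℂ) (hf : ∀ j ∈ s, ContDiffOn ℝ ∞ (f j) W) (l : Fin n)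
    {x : Cn n} (hx : x ∈ W) :
    cd l (fun y => ∑ j ∈ s, f j y) x = ∑ j ∈ s, cd l (f j) x ∧
    cdb l (fun y => ∑ j ∈ s, f j y) x = ∑ j ∈ s, cdb l (f j) x := by
  classical
  induction s using Finset.induction_on with
  | empty => simpa using cd_const 0 l x
  | insert a s ha ih =>
    have hs : ∀ j ∈ s, ContDiffOn ℝ ∞ (f j) W := fun j hj => hf j (Finset.mem_insert_of_mem hj)
    have h1 := (hWIRT W hW (f a) (fun y => ∑ j ∈ s, f j y) (hf a (Finset.mem_insert_self a s))
      (ContDiffOn.sum fun j hj => hs j hj)).2.1 l x hx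
    have h2 := ih hs
    simp only [Finset.sum_insert ha]
    rw [h1.1, h1.2, h2.1, h2.2]
    exact ⟨rfl, rfl⟩

theorem cd_sum_mul (hWIRT : S_WIRT) {n m : ℕ} {W : Set (Cn n)} (hW : IsOpen W)
    (f g : Fin m → Cn n → ℂ) (hf : ∀ j, ContDiffOn ℝ ∞ (f j) W)
    (hg : ∀ j, ContDiffOn ℝ ∞ (g j) W) (l : Fin n) {x : Cn n} (hx : x ∈ W) :
    cd l (fun y => ∑ j, f j y * g j y) x = ∑ j, (f j x * cd l (g j) x + g j x * cd l (f j) x) ∧
    cdb l (fun y => ∑ j, f j y * g j y) x =
      ∑ j, (f j x * cdb l (g j) x + g j x * cdb l (f j) x) := by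
  have h1 := cd_sum hWIRT hW Finset.univ (fun j y => f j y * g j y)
    (fun j _ => (hf j).mul (hg j)) l hx
  have h2 : ∀ j, _ := fun j => (hWIRT W hW (f j) (g j) (hf j) (hg j)).2.2.1 l x hx
  constructor
  · rw [h1.1]
    exact Finset.sum_congr rfl fun j _ => (h2 j).1
  · rw [h1.2]
    exact Finset.sum_congr rfl fun j _ => (h2 j).2

theorem der (hWIRT : S_WIRT) : S_DER := by
  intro n i H W v hK
  have hO := hK.isOpen
  have sv : ∀ j, ContDiffOn ℝ ∞ (fun y => v y j) W := fun j => contDiffOn_pi.mp hK.smv j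
  have sc : ∀ j, ContDiffOn ℝ ∞ (fun y => conj (v y j)) W := fun j =>
    Complex.conjCLE.contDiff.comp_contDiffOn (sv j)
  have w := fun (f g : Cn n → ℂ) (hf : ContDiffOn ℝ ∞ f W) (hg : ContDiffOn ℝ ∞ g W) =>
    hWIRT W hO f g hf hg
  have scd : ∀ (f : Cn n → ℂ), ContDiffOn ℝ ∞ f W → ∀ l, ContDiffOn ℝ ∞ (cd l f) W :=
    fun f hf l => ((w f f hf hf).1 l).1
  have scdb : ∀ (f : Cn n → ℂ), ContDiffOn ℝ ∞ f W → ∀ l, ContDiffOn ℝ ∞ (cdb l f) W :=
    fun f hf l => ((w f f hf hf).1 l).2
  have ccj : ∀ j l, ∀ x ∈ W, cd l (fun y => conj (v y j)) x = conj (cdb l (fun y => v y j) x) ∧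
      cdb l (fun y => conj (v y j)) x = conj (cd l (fun y => v y j) x) :=
    fun j l x hx => (w _ _ (sv j) (sv j)).2.2.2.1 l x hx
  have comm : ∀ (f : Cn n → ℂ), ContDiffOn ℝ ∞ f W → ∀ l m, ∀ x ∈ W,
      cd l (cd m f) x = cd m (cd l f) x ∧ cdb l (cdb m f) x = cdb m (cdb l f) x ∧
      cd l (cdb m f) x = cdb m (cd l f) x :=
    fun f hf l m x hx => (w f f hf hf).2.2.2.2.1 l m x hx
  -- (7)
  have h7 : ∀ x ∈ W, ∀ l, Tm v x i l = 0 ∧ Bm v x i l = 0 := by
    intro x hx l
    have h1 := cd_congr hO (f := fun y => v y i) (g := fun _ => 1) (fun y hy => hK.norm y hy) l hx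
    have h2 := cd_const (n := n) 1 l x
    constructor
    · change cdb l (fun y => v y i) x = 0
      rw [h1.2, h2.2]
    · change cd l (fun y => v y i) x = 0
      rw [h1.1, h2.1]
  -- derivative of the kernel equation
  have hker : ∀ x ∈ W, ∀ k l,
      ∑ j, (H x j k * cd l (fun y => v y j) x + v x j * cd l (fun y => H y j k) x) = 0 ∧
      ∑ j, (H x j k * cdb l (fun y => v y j) x + v x j * cdb l (fun y => H y j k) x) = 0 := by
    intro x hx k l
    have h1 := cd_sum_mul hWIRT hO (fun j y => H y j k) (fun j y => v y j)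
      (fun j => hK.smH j k) sv l hx
    have h2 := cd_congr hO (f := fun y => ∑ j, H y j k * v y j) (g := fun _ => 0)
      (fun y hy => hK.ker y hy k) l hx
    have h3 := cd_const (n := n) 0 l x
    constructor
    · rw [← h1.1, h2.1, h3.1]
    · rw [← h1.2, h2.2, h3.2]
  -- (1)
  have h1a : ∀ x ∈ W, ∀ k l, ((H x)ᵀ * Tm v x) k l = - ∑ j, v x j * cdb l (fun y => H y j k) x := by
    intro x hx k l
    have h1 := (hker x hx k l).2
    rw [Finset.sum_add_distrib] at h1
    rw [Matrix.mul_apply]
    exact eq_neg_of_add_eq_zero_left h1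
  have h1 : ∀ x ∈ W, ∀ k l, ((H x)ᵀ * Tm v x) k l = ((H x)ᵀ * Tm v x) l k := by
    intro x hx k l
    rw [h1a x hx k l, h1a x hx l k]
    congr 1
    exact Finset.sum_congr rfl fun j _ => by rw [(hK.clos x hx j k l).2]
  -- conjugate of the kernel equation
  have hkc : ∀ x ∈ W, ∀ j, ∑ l, H x j l * conj (v x l) = 0 := by
    intro x hx j
    have h2 := congrArg conj (hK.ker x hx j)
    rw [map_sum, map_zero] at h2
    rw [← h2]
    refine Finset.sum_congr rfl fun l _ => ?_
    rw [map_mul]
    congr 1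
    have := (hK.herm x hx).isHermitian.apply j l
    rw [← this]
    rfl
  -- (2)
  have h2 : ∀ x ∈ W, ∀ j, ∑ l, conj (v x l) * cdb l (fun y => v y j) x = 0 := by
    intro x hx
    obtain ⟨c, hc⟩ := hK.only x hx (fun j => ∑ l, conj (v x l) * cdb l (fun y => v y j) x) (by
      intro k
      calc ∑ j, H x j k * ∑ l, conj (v x l) * cdb l (fun y => v y j) x
          = ∑ l, conj (v x l) * ((H x)ᵀ * Tm v x) k l := by
            simp only [Matrix.mul_apply, Finset.mul_sum]
            rw [Finset.sum_comm]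
            refine Finset.sum_congr rfl fun l _ => Finset.sum_congr rfl fun j _ => ?_
            change _ = conj (v x l) * (H x j k * cdb l (fun y => v y j) x)
            ring
        _ = ∑ l, conj (v x l) * ((H x)ᵀ * Tm v x) l k :=
            Finset.sum_congr rfl fun l _ => by rw [h1 x hx k l]
        _ = ∑ j, cdb k (fun y => v y j) x * ∑ l, H x j l * conj (v x l) := by
            simp only [Matrix.mul_apply, Finset.mul_sum]
            rw [Finset.sum_comm]
            refine Finset.sum_congr rfl fun j _ => Finset.sum_congr rfl fun l _ => ?_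
            change conj (v x l) * (H x j l * cdb k (fun y => v y j) x) = _
            ring
        _ = 0 := by
            refine Finset.sum_eq_zero fun j _ => ?_
            rw [hkc x hx j, mul_zero])
    have hi := congrFun hc i
    have h3 : ∑ l, conj (v x l) * cdb l (fun y => v y i) x = 0 := by
      refine Finset.sum_eq_zero fun l _ => ?_
      have : cdb l (fun y => v y i) x = 0 := (h7 x hx l).1
      rw [this, mul_zero]
    have h4 : c = 0 := by
      have h5 : (c • v x) i = c := by
        rw [Pi.smul_apply, hK.norm x hx, smul_eq_mul, mul_one]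
      rw [← h5, ← hi]
      exact h3
    intro j
    have := congrFun hc j
    rw [h4, zero_smul] at this
    exact this
  have h2' : ∀ x ∈ W, ∀ j l,
      ∑ m, (conj (v x m) * cd l (cdb m (fun y => v y j)) x +
        cdb m (fun y => v y j) x * conj (Tm v x m l)) = 0 ∧
      ∑ m, (conj (v x m) * cdb l (cdb m (fun y => v y j)) x +
        cdb m (fun y => v y j) x * conj (Bm v x m l)) = 0 := by
    intro x hx j l
    have e1 := cd_sum_mul hWIRT hO (fun m y => conj (v y m)) (fun m y => cdb m (fun y => v y j) y)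
      sc (fun m => scdb _ (sv j) m) l hx
    have e2 := cd_congr hO (f := fun y => ∑ m, conj (v y m) * cdb m (fun y => v y j) y)
      (g := fun _ => 0) (fun y hy => h2 y hy j) l hx
    have e3 := cd_const (n := n) 0 l x
    constructor
    · rw [← e3.1, ← e2.1, e1.1]
      exact Finset.sum_congr rfl fun m _ => by rw [(ccj m l x hx).1]; rfl
    · rw [← e3.2, ← e2.2, e1.2]
      exact Finset.sum_congr rfl fun m _ => by rw [(ccj m l x hx).2]; rfl
  intro x hx
  refine ⟨?_, fun j => h2 x hx j, ?_, ?_, ?_, ?_, h7 x hx⟩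
  · ext k l
    exact h1 x hx l k
  · intro f hf
    have e1 : ∀ j, cd j (Dvb v f) x = ∑ k, (conj (v x k) * cd j (cdb k f) x +
        cdb k f x * conj (Tm v x k j)) := by
      intro j
      have := (cd_sum_mul hWIRT hO (fun k y => conj (v y k)) (fun k y => cdb k f y)
        sc (fun k => scdb f hf k) j hx).1
      refine this.trans (Finset.sum_congr rfl fun k _ => ?_)
      rw [(ccj k j x hx).1]
      rfl
    have e2 : ∀ k, cdb k (Dv v f) x = ∑ j, (v x j * cdb k (cd j f) x +
        cd j f x * Tm v x j k) := by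
      intro k
      exact (cd_sum_mul hWIRT hO (fun j y => v y j) (fun j y => cd j f y)
        sv (fun j => scd f hf j) k hx).2
    have e3 : Dv v (Dvb v f) x = ∑ j, ∑ k, v x j * conj (v x k) * cd j (cdb k f) x := by
      have : Dv v (Dvb v f) x = ∑ j, ∑ k, v x j * conj (v x k) * cd j (cdb k f) x +
          ∑ k, cdb k f x * conj (∑ j, conj (v x j) * Tm v x k j) := by
        simp only [Dv, e1, Finset.mul_sum, map_sum, map_mul, Complex.conj_conj, mul_add,
          Finset.sum_add_distrib]
        congr 1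
        · exact Finset.sum_congr rfl fun j _ => Finset.sum_congr rfl fun k _ => by ring
        · rw [Finset.sum_comm]
          exact Finset.sum_congr rfl fun j _ => Finset.sum_congr rfl fun k _ => by ring
      rw [this]
      have h0 : ∑ k, cdb k f x * conj (∑ j, conj (v x j) * Tm v x k j) = 0 := by
        refine Finset.sum_eq_zero fun k _ => ?_
        have : ∑ j, conj (v x j) * Tm v x k j = 0 := h2 x hx k
        rw [this, map_zero, mul_zero]
      rw [h0, add_zero]
    have e4 : Dvb v (Dv v f) x = ∑ k, ∑ j, v x j * conj (v x k) * cdb k (cd j f) x := by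
      have : Dvb v (Dv v f) x = ∑ k, ∑ j, v x j * conj (v x k) * cdb k (cd j f) x +
          ∑ j, cd j f x * (∑ k, conj (v x k) * Tm v x j k) := by
        simp only [Dvb, e2, Finset.mul_sum, mul_add, Finset.sum_add_distrib]
        congr 1
        · exact Finset.sum_congr rfl fun j _ => Finset.sum_congr rfl fun k _ => by ring
        · rw [Finset.sum_comm]
          exact Finset.sum_congr rfl fun j _ => Finset.sum_congr rfl fun k _ => by ring
      rw [this]
      have h0 : ∑ j, cd j f x * (∑ k, conj (v x k) * Tm v x j k) = 0 := by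
        refine Finset.sum_eq_zero fun k _ => ?_
        have : ∑ j, conj (v x j) * Tm v x k j = 0 := h2 x hx k
        rw [this, mul_zero]
      rw [h0, add_zero]
    rw [e3, e4, Finset.sum_comm]
    exact Finset.sum_congr rfl fun k _ => Finset.sum_congr rfl fun j _ => by
      rw [(comm f hf j k x hx).2.2]
  · intro j l
    have e := (h2' x hx j l).2
    rw [Finset.sum_add_distrib] at e
    rw [Matrix.mul_apply]
    refine Eq.trans ?_ (eq_neg_of_add_eq_zero_left e)
    exact Finset.sum_congr rfl fun m _ => by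
      change conj (v x m) * cdb m (cdb l (fun y => v y j)) x = _
      rw [(comm _ (sv j) m l x hx).2.1]
  · intro j l
    have e := (h2' x hx j l).1
    rw [Finset.sum_add_distrib] at e
    rw [Matrix.mul_apply]
    refine Eq.trans ?_ (eq_neg_of_add_eq_zero_left e)
    exact Finset.sum_congr rfl fun m _ => by
      change conj (v x m) * cdb m (cd l (fun y => v y j)) x = _
      rw [(comm _ (sv j) l m x hx).2.2]
  · intro j k
    have e := (hker x hx k j).1
    rw [Finset.sum_add_distrib, add_comm] at e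
    have e' : ∑ m, Bm v x m j * H x m k = ∑ m, H x m k * cd j (fun y => v y m) x :=
      Finset.sum_congr rfl fun m _ => mul_comm _ _
    rw [e']
    refine Eq.trans ?_ (eq_neg_of_add_eq_zero_left e)
    exact Finset.sum_congr rfl fun m _ => by rw [(hK.clos x hx j k m).1]

end Pool.Agent.Helper83.SP
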