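import Pool.Agent.Helper10.SP.GoalsC

set_option autoImplicit false

open Complex Metric Set Filter Topology MeasureTheory
open scoped ContDiff ComplexConjugate ComplexOrder Manifold

namespace Pool.Agent.Helper83.SP

open Pool.Agent.Helper95.Lin Pool.Agent.Helper16.Abund Pool.Agent.Helper92.Orb
open Pool.Agent.Helper10.SP

universe u v

theorem continuous_base {b : ℕ} : Continuous (base : Cn (b + 1) → Cn b) :=
  continuous_pi fun i => continuous_apply (Fin.castAdd 1 i)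

theorem continuous_lc {b : ℕ} : Continuous (lc : Cn (b + 1) → ℂ) :=
  continuous_apply (Fin.natAdd b 0)

theorem isOpen_prodS {b : ℕ} {U : Set (Cn b)} {Δ : Set ℂ} (hU : IsOpen U) (hΔ : IsOpen Δ) :
    IsOpen (prodS U Δ) :=
  (hU.preimage continuous_base).inter (hΔ.preimage continuous_lc)

theorem lev_add_const {n : ℕ} (f : Cn n → ℝ) (K : ℝ) (x e : Cn n) :
    lev (fun z => f z + K) x e = lev f x e := by
  simp only [lev, hess, fderiv_add_const]

/-- Scaling by `s`. -/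
noncomputable def scl (n : ℕ) (s : ℝ) : Cn n →L[ℂ] Cn n := (s : ℂ) • ContinuousLinearMap.id ℂ (Cn n)

theorem scl_apply (n : ℕ) (s : ℝ) (x : Cn n) : scl n s x = (s : ℂ) • x := rfl

theorem scl_det (n : ℕ) (s : ℝ) (hs : 0 < s) : (scl n s).det ≠ 0 := by
  have : (scl n s).det = (s : ℂ) ^ Module.finrank ℂ (Cn n) := by
    unfold ContinuousLinearMap.det
    have h1 : ((scl n s : Cn n →L[ℂ] Cn n) : Cn n →ₗ[ℂ] Cn n) = (s : ℂ) • LinearMap.id := rfl
    rw [h1, LinearMap.det_smul, LinearMap.det_id, mul_one]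
  rw [this]
  exact pow_ne_zero _ (by exact_mod_cast hs.ne')

theorem spec_one (hSPEC : S_SPEC.{u, v}) (hPARB : S_PARB.{u, v}) (hWCH : S_WCH) {b : ℕ} {G : Type u}
    {M : Type v} [Group G] [MulAction G M]
    [TopologicalSpace M] [T2Space M] [ChartedSpace (Fin (b + 1) → ℂ) M]
    [IsManifold 𝓘(ℂ, Fin (b + 1) → ℂ) ω M] {h : M → Matrix (Fin (b + 1)) (Fin (b + 1)) ℂ}
    {v : M → ℝ} (D : Data b G M h v) (p : M) :
    ∃ (ψ : Cn (b + 1) → M) (Ψ : Cn b → ℝ), Spec v (ball 0 6) (ball 0 6) ψ Ψ ∧ ψ 0 = p := by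
  obtain ⟨r, hr, ψ, Ψ, hpar, -, h0, hsm, hpos, hpot⟩ := hSPEC D p
  have hs : 0 < r / 6 := by positivity
  have hm : MapsTo (scl b (r / 6)) (ball 0 6) (ball 0 r) := by
    intro z hz
    rw [mem_ball_zero_iff] at hz ⊢
    rw [scl_apply, norm_smul, Complex.norm_real, Real.norm_eq_abs, abs_of_pos hs]
    nlinarith
  have hV' : IsOpen (prodS (ball (0 : Cn b) 6) (ball 0 6)) := isOpen_prodS isOpen_ball isOpen_ball
  have hmV : MapsTo (scl (b + 1) (r / 6)) (prodS (ball (0 : Cn b) 6) (ball 0 6))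
      (prodS (ball 0 r) (ball 0 r)) := by
    intro x hx
    refine ⟨hm hx.1, ?_⟩
    have hx2 := hx.2
    rw [mem_ball_zero_iff] at hx2 ⊢
    have e : lc (scl (b + 1) (r / 6) x) = ((r / 6 : ℝ) : ℂ) * lc x := rfl
    rw [e, norm_mul, Complex.norm_real, Real.norm_eq_abs, abs_of_pos hs]
    nlinarith
  have hfd : ∀ x, fderiv ℂ (scl (b + 1) (r / 6)) x = scl (b + 1) (r / 6) := fun x =>
    (scl (b + 1) (r / 6)).fderiv
  obtain ⟨hp1, hp2⟩ := (hPARB D).1 (prodS (ball 0 r) (ball 0 r)) (prodS (ball 0 6) (ball 0 6)) ψ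
    (scl (b + 1) (r / 6)) hpar hV' (scl (b + 1) (r / 6)).differentiable.differentiableOn hmV
    (fun x _ => by rw [hfd x]; exact scl_det _ _ hs)
  refine ⟨ψ ∘ scl (b + 1) (r / 6), fun z => Ψ (scl b (r / 6) z) +
    Real.log (‖(scl (b + 1) (r / 6)).det‖ ^ 2), ⟨hp1, ?_, ?_, ?_⟩, ?_⟩
  · refine ContDiffOn.add ?_ contDiffOn_const
    refine hsm.comp ?_ hm
    exact ((scl b (r / 6)).restrictScalars ℝ).contDiff.contDiffOn
  · intro z hz e he
    rw [lev_add_const]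
    have h1 := (hWCH.1 (ball (0 : Cn b) r) (ball (0 : Cn b) 6) isOpen_ball isOpen_ball
      (scl b (r / 6)) (scl b (r / 6)).differentiable.differentiableOn hm).2 Ψ hsm z hz
    have h2 := h1.1 e
    have h3 : lev (fun z => Ψ (scl b (r / 6) z)) z e = lev (Ψ ∘ scl b (r / 6)) z e := rfl
    rw [h3, h2, (scl b (r / 6)).fderiv]
    refine hpos _ (hm hz) _ ?_
    rw [scl_apply]
    exact smul_ne_zero (by exact_mod_cast hs.ne') he
  · intro x hx
    rw [(hp2 x hx).2, hpot _ (hmV hx), hfd x]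
    rfl
  · change ψ (scl (b + 1) (r / 6) 0) = p
    rw [map_zero, h0]

theorem finsp (hSPEC : S_SPEC.{u, v}) (hPARB : S_PARB.{u, v}) (hWCH : S_WCH) :
    S_FINSP.{u, v} := by
  intro b G M _ _ _ _ _ _ _ h v D
  choose ψ Ψ hS h0 using fun p : M => spec_one hSPEC hPARB hWCH D p
  obtain ⟨K, hK, hcov⟩ := D.act.cocompact
  have hsub : prodS (ball (0 : Cn b) 1) (ball 0 1) ⊆ prodS (ball (0 : Cn b) 6) (ball 0 6) :=
    fun x hx => ⟨ball_subset_ball (by norm_num) hx.1, ball_subset_ball (by norm_num) hx.2⟩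
  have hopen : ∀ p : M, IsOpen (ψ p '' prodS (ball (0 : Cn b) 1) (ball 0 1)) := fun p =>
    (hPARB D).2.2.2.1 _ (ψ p) (hS p).1 _ hsub (isOpen_prodS isOpen_ball isOpen_ball)
  have hmem : ∀ p : M, p ∈ ψ p '' prodS (ball (0 : Cn b) 1) (ball 0 1) := by
    intro p
    refine ⟨0, ⟨?_, ?_⟩, h0 p⟩
    · have : base (0 : Cn (b + 1)) = (0 : Cn b) := rfl
      rw [this]
      exact mem_ball_self one_pos
    · have : lc (0 : Cn (b + 1)) = (0 : ℂ) := rfl
      rw [this]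
      exact mem_ball_self one_pos
  obtain ⟨t, ht⟩ := hK.elim_finite_subcover
    (fun p : M => ψ p '' prodS (ball (0 : Cn b) 1) (ball 0 1)) hopen
    (fun p _ => mem_iUnion.mpr ⟨p, hmem p⟩)
  obtain ⟨x₀⟩ := (inferInstance : Nonempty M)
  obtain ⟨γ₀, hγ₀⟩ := hcov x₀
  have hpos : 0 < t.card := by
    obtain ⟨p, hp⟩ := mem_iUnion.mp (ht hγ₀)
    obtain ⟨hpt, -⟩ := mem_iUnion.mp hp
    exact Finset.card_pos.mpr ⟨p, hpt⟩
  refine ⟨t.card, fun i => ψ (t.equivFin.symm i), fun i => Ψ (t.equivFin.symm i), hpos,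
    fun i => hS _, ?_⟩
  intro p
  obtain ⟨γ, hγ⟩ := hcov p
  obtain ⟨q, hq⟩ := mem_iUnion.mp (ht hγ)
  obtain ⟨hqt, x, hx, hxe⟩ := mem_iUnion.mp hq
  refine ⟨γ, t.equivFin ⟨q, hqt⟩, x, hx, ?_⟩
  simp only [Equiv.symm_apply_apply]
  exact hxe.symm

end Pool.Agent.Helper83.SP
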